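import Pool.Agent.Q226.NI.Defs
import Pool.Agent.Q226.NI.Tree

set_option autoImplicit false

/-!
# Trees maximising the average size of 1-nearly independent sets

The definitions (`Nearly`, `sigma1`, `S1`, `av1`, `R`) are in `Pool/Agent/Q226/NI/Defs.lean`.

The proof. A 1-nearly independent set with the edge `uv` consists of `u`, `v` and an independent set
of the forest `F` obtained by removing the closed neighbourhoods of `u` and `v`. With `m` vertices the
average size of the independent sets of `F` is at most `m / 2`, and at most `m / 2 - 1 / 3` if `F` has
an edge. In a tree different from `R_n` it follows that the average belonging to each edge is at most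
`(n + 1) / 2 - 1 / 3`, and this is at most `av_1(R_n)` for `n = 4, 5` and for `n ≥ 10`. The cases
`6 ≤ n ≤ 9` are done by a dynamic program over all increasing parent vectors, evaluated in the
kernel.
-/

namespace Pool.Agent.Results.MP_635878_co.StarMax

open Pool.Agent.Q226.NI

/-- **`R_n` attains the maximum of `av_1` over all trees with `n` vertices, for every `n ≥ 4`.** -/
theorem result : ∀ n : ℕ, 4 ≤ n → ∀ T : SimpleGraph (Fin n), T.IsTree → av1 T ≤ av1 (R n) :=
  fun n hn T hT => main n hn T hT

end Pool.Agent.Results.MP_635878_co.StarMax
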